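import Mathlib

/-!
# The Population Lotto game: definitions
-/

set_option autoImplicit false

open MeasureTheory ProbabilityTheory

namespace Q289.PL

/-- the probability that a draw `x` beats an independent draw from `ν`, ties being split
uniformly at random -/
noncomputable def H (ν : Measure ℝ) (x : ℝ) : ℝ := ν.real (Set.Iio x) + 1 / 2 * ν.real {x}

/-- the payoff of the strategy `f` against the aggregate population strategy `ν` -/
noncomputable def payoff (ν f : Measure ℝ) : ℝ := ∫ x, H ν x ∂f

/-- the strategies available with the budget `b`: the probability distributions on `[0, ∞)` with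
mean `b` -/
def IsStrategy (b : ℝ) (f : Measure ℝ) : Prop :=
  IsProbabilityMeasure f ∧ f (Set.Iio 0) = 0 ∧ Integrable (fun x : ℝ => x) f ∧ ∫ x, x ∂f = b

/-- the aggregate population strategy, for the population `(Ω, μ)` in which the player `ω` uses the
strategy `κ ω` -/
noncomputable def aggregate {Ω : Type} [MeasurableSpace Ω] (μ : Measure Ω) (κ : Kernel Ω ℝ) :
    Measure ℝ := μ.bind κ

/-- Nash equilibrium, for the population `(Ω, μ)` in which the player `ω` has the budget `b ω`:
almost every player maximizes the payoff against the aggregate population strategy -/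
def IsNash {Ω : Type} [MeasurableSpace Ω] (μ : Measure Ω) (b : Ω → ℝ) (κ : Kernel Ω ℝ) : Prop :=
  ∀ᵐ ω ∂μ, IsStrategy (b ω) (κ ω) ∧
    ∀ f, IsStrategy (b ω) f → payoff (aggregate μ κ) f ≤ payoff (aggregate μ κ) (κ ω)

end Q289.PL
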