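import Pool.Agent.Q289.PL.Defs

/-!
# The Population Lotto game: the value function and one equilibrium
-/

set_option autoImplicit false

open MeasureTheory ProbabilityTheory Filter Topology

namespace Q289.PL

theorem H_nonneg (ν : Measure ℝ) (x : ℝ) : 0 ≤ H ν x := by
  unfold H; positivity

theorem Iic_eq (ν : Measure ℝ) [IsProbabilityMeasure ν] (x : ℝ) :
    ν.real (Set.Iic x) = ν.real (Set.Iio x) + ν.real {x} := by
  have h : Set.Iic x = Set.Iio x ∪ {x} := by
    ext y; simp [le_iff_lt_or_eq]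
  rw [h, measureReal_union (by simp) (measurableSet_singleton x)]

theorem H_le_Iic (ν : Measure ℝ) [IsProbabilityMeasure ν] (x : ℝ) : H ν x ≤ ν.real (Set.Iic x) := by
  rw [Iic_eq]
  unfold H
  have : 0 ≤ ν.real {x} := measureReal_nonneg
  linarith

theorem H_le_one (ν : Measure ℝ) [IsProbabilityMeasure ν] (x : ℝ) : H ν x ≤ 1 :=
  (H_le_Iic ν x).trans measureReal_le_one

theorem Iic_le_H (ν : Measure ℝ) [IsProbabilityMeasure ν] {x y : ℝ} (h : x < y) :
    ν.real (Set.Iic x) ≤ H ν y := by
  unfold H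
  have h1 : ν.real (Set.Iic x) ≤ ν.real (Set.Iio y) :=
    measureReal_mono (fun z hz => lt_of_le_of_lt hz h)
  have : 0 ≤ ν.real {y} := measureReal_nonneg
  linarith

theorem H_mono (ν : Measure ℝ) [IsProbabilityMeasure ν] : Monotone (H ν) := by
  intro x y h
  rcases h.lt_or_eq with h | h
  · exact (H_le_Iic ν x).trans (Iic_le_H ν h)
  · rw [h]

theorem H_integrable (ν f : Measure ℝ) [IsProbabilityMeasure ν] [IsProbabilityMeasure f] :
    Integrable (H ν) f := by
  refine Integrable.of_bound (H_mono ν).measurable.aestronglyMeasurable 1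
    (Eventually.of_forall fun x => ?_)
  rw [Real.norm_of_nonneg (H_nonneg ν x)]
  exact H_le_one ν x

/-- the value of the budget `b` -/
noncomputable def val (ν : Measure ℝ) (b : ℝ) : ℝ :=
  sSup {r | ∃ f, IsStrategy b f ∧ payoff ν f = r}

theorem payoff_le_one (ν : Measure ℝ) [IsProbabilityMeasure ν] {b : ℝ} {f : Measure ℝ}
    (hf : IsStrategy b f) : payoff ν f ≤ 1 := by
  have := hf.1
  unfold payoff
  calc ∫ x, H ν x ∂f ≤ ∫ x, (1 : ℝ) ∂f :=
        integral_mono (H_integrable ν f) (integrable_const _) (H_le_one ν)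
    _ = 1 := by simp

theorem val_bdd (ν : Measure ℝ) [IsProbabilityMeasure ν] (b : ℝ) :
    BddAbove {r | ∃ f, IsStrategy b f ∧ payoff ν f = r} :=
  ⟨1, by rintro r ⟨f, hf, rfl⟩; exact payoff_le_one ν hf⟩

theorem dirac_strategy {b : ℝ} (hb : 0 ≤ b) : IsStrategy b (Measure.dirac b) := by
  refine ⟨inferInstance, ?_, ?_, ?_⟩
  · rw [Measure.dirac_apply' _ measurableSet_Iio]
    simp [hb]
  · exact integrable_dirac (by simp)
  · rw [integral_dirac]

theorem payoff_dirac (ν : Measure ℝ) (b : ℝ) : payoff ν (Measure.dirac b) = H ν b := by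
  unfold payoff
  rw [integral_dirac]

theorem payoff_le_val (ν : Measure ℝ) [IsProbabilityMeasure ν] {b : ℝ} {f : Measure ℝ}
    (hf : IsStrategy b f) : payoff ν f ≤ val ν b := le_csSup (val_bdd ν b) ⟨f, hf, rfl⟩

theorem H_le_val (ν : Measure ℝ) [IsProbabilityMeasure ν] {b : ℝ} (hb : 0 ≤ b) :
    H ν b ≤ val ν b := by
  rw [← payoff_dirac]
  exact payoff_le_val ν (dirac_strategy hb)

theorem val_le_one (ν : Measure ℝ) [IsProbabilityMeasure ν] {b : ℝ} (hb : 0 ≤ b) :
    val ν b ≤ 1 := by
  refine csSup_le ⟨_, _, dirac_strategy hb, rfl⟩ ?_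
  rintro r ⟨f, hf, rfl⟩
  exact payoff_le_one ν hf

theorem mix_strategy {b b' : ℝ} {f f' : Measure ℝ} (hf : IsStrategy b f) (hf' : IsStrategy b' f')
    {l : ℝ} (h0 : 0 ≤ l) (h1 : l ≤ 1) :
    IsStrategy (l * b + (1 - l) * b') (ENNReal.ofReal l • f + ENNReal.ofReal (1 - l) • f') := by
  obtain ⟨hp, hn, hi, hm⟩ := hf
  obtain ⟨hp', hn', hi', hm'⟩ := hf'
  have hi1 : Integrable (fun x : ℝ => x) (ENNReal.ofReal l • f) :=
    hi.smul_measure ENNReal.ofReal_ne_top
  have hi2 : Integrable (fun x : ℝ => x) (ENNReal.ofReal (1 - l) • f') :=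
    hi'.smul_measure ENNReal.ofReal_ne_top
  refine ⟨⟨?_⟩, ?_, hi1.add_measure hi2, ?_⟩
  · simp only [Measure.add_apply, Measure.smul_apply, measure_univ, smul_eq_mul, mul_one]
    rw [← ENNReal.ofReal_add h0 (by linarith)]
    simp
  · simp [hn, hn']
  · rw [integral_add_measure hi1 hi2, integral_smul_measure, integral_smul_measure,
      ENNReal.toReal_ofReal h0, ENNReal.toReal_ofReal (by linarith), hm, hm']
    rfl

theorem mix_payoff (ν : Measure ℝ) [IsProbabilityMeasure ν] {b b' : ℝ} {f f' : Measure ℝ}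
    (hf : IsStrategy b f) (hf' : IsStrategy b' f') {l : ℝ} (h0 : 0 ≤ l) (h1 : l ≤ 1) :
    payoff ν (ENNReal.ofReal l • f + ENNReal.ofReal (1 - l) • f') =
      l * payoff ν f + (1 - l) * payoff ν f' := by
  have := hf.1
  have := hf'.1
  unfold payoff
  rw [integral_add_measure ((H_integrable ν f).smul_measure ENNReal.ofReal_ne_top)
    ((H_integrable ν f').smul_measure ENNReal.ofReal_ne_top), integral_smul_measure,
    integral_smul_measure, ENNReal.toReal_ofReal h0, ENNReal.toReal_ofReal (by linarith)]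
  rfl

theorem val_concave (ν : Measure ℝ) [IsProbabilityMeasure ν] :
    ConcaveOn ℝ (Set.Ici 0) (val ν) := by
  refine ⟨convex_Ici 0, fun x hx y hy a b ha hb hab => ?_⟩
  have hb' : b = 1 - a := by linarith
  subst hb'
  have hx' : (0 : ℝ) ≤ x := hx
  have hy' : (0 : ℝ) ≤ y := hy
  simp only [smul_eq_mul]
  refine le_of_forall_pos_lt_add fun ε hε => ?_
  obtain ⟨r, ⟨f, hf, hr⟩, hr'⟩ := exists_lt_of_lt_csSup (s := {r | ∃ f, IsStrategy x f ∧
    payoff ν f = r}) ⟨_, _, dirac_strategy hx', rfl⟩ (show val ν x - ε < val ν x by linarith)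
  obtain ⟨r', ⟨f', hf', hs⟩, hs'⟩ := exists_lt_of_lt_csSup (s := {r | ∃ f, IsStrategy y f ∧
    payoff ν f = r}) ⟨_, _, dirac_strategy hy', rfl⟩ (show val ν y - ε < val ν y by linarith)
  have h1 := payoff_le_val ν (mix_strategy hf hf' ha (by linarith))
  rw [mix_payoff ν hf hf' ha (by linarith), hr, hs] at h1
  have h2 : a * val ν x + (1 - a) * val ν y - ε < a * r + (1 - a) * r' := by
    rcases ha.eq_or_lt with h | h
    · rw [← h]; linarith
    · nlinarith
  linarith

/-- supporting line of a concave function at an interior point -/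
theorem support_line {φ : ℝ → ℝ} (hφ : ConcaveOn ℝ (Set.Ici 0) φ) {b : ℝ} (hb : 0 < b) :
    ∃ p : ℝ, ∀ x, 0 ≤ x → φ x ≤ φ b + p * (x - b) := by
  set S : Set ℝ := {s | ∃ x, 0 ≤ x ∧ x < b ∧ s = (φ b - φ x) / (b - x)} with hS
  have hne : S.Nonempty := ⟨_, 0, le_rfl, hb, rfl⟩
  have hright : ∀ y, b < y → ∀ s ∈ S, (φ y - φ b) / (y - b) ≤ s := by
    rintro y hy s ⟨x, hx, hxb, rfl⟩
    exact hφ.slope_anti_adjacent (show x ∈ Set.Ici 0 from hx)
      (show y ∈ Set.Ici 0 from (hb.trans hy).le) hxb hy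
  have hbdd : BddBelow S := ⟨_, hright (b + 1) (by linarith)⟩
  refine ⟨sInf S, fun x hx => ?_⟩
  rcases lt_trichotomy x b with h | h | h
  · have h1 : sInf S ≤ (φ b - φ x) / (b - x) := csInf_le hbdd ⟨x, hx, h, rfl⟩
    rw [le_div_iff₀ (by linarith)] at h1
    linarith
  · rw [h]; simp
  · have h1 : (φ x - φ b) / (x - b) ≤ sInf S := le_csInf hne (hright x h)
    rw [div_le_iff₀ (by linarith)] at h1
    linarith

/-- a maximizing strategy is carried by the set where the payoff meets a supporting line -/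
theorem touching (ν : Measure ℝ) [IsProbabilityMeasure ν] {φ : ℝ → ℝ} {b p : ℝ}
    (hφ : ∀ x, 0 ≤ x → H ν x ≤ φ x)
    (hline : ∀ x, 0 ≤ x → φ x ≤ φ b + p * (x - b)) {f : Measure ℝ} (hf : IsStrategy b f)
    (hmax : payoff ν f = φ b) : ∀ᵐ x ∂f, 0 ≤ x ∧ H ν x = φ b + p * (x - b) := by
  obtain ⟨hp, hn, hi, hm⟩ := hf
  have hpos : ∀ᵐ x ∂f, 0 ≤ x := by
    rw [ae_iff]
    have : {x : ℝ | ¬ 0 ≤ x} = Set.Iio 0 := by ext x; simp
    rw [this, hn]
  have hsub : Integrable (fun x : ℝ => x - b) f := hi.sub (integrable_const _)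
  have hsub' : Integrable (fun x : ℝ => p * (x - b)) f := hsub.const_mul p
  have hil : Integrable (fun x => φ b + p * (x - b)) f := (integrable_const _).add hsub'
  have hint : ∫ x, (φ b + p * (x - b)) ∂f = φ b := by
    rw [integral_add (integrable_const _) hsub',
      integral_const_mul, integral_sub hi (integrable_const _), hm]
    simp
  have hzero : ∫ x, ((φ b + p * (x - b)) - H ν x) ∂f = 0 := by
    rw [integral_sub hil (H_integrable ν f), hint]
    change φ b - payoff ν f = 0
    rw [hmax, sub_self]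
  have hnn : 0 ≤ᵐ[f] fun x => (φ b + p * (x - b)) - H ν x := by
    filter_upwards [hpos] with x hx
    have := (hφ x hx).trans (hline x hx)
    simp only [Pi.zero_apply]
    linarith
  have h1 := (integral_eq_zero_iff_of_nonneg_ae hnn (hil.sub (H_integrable ν f))).1 hzero
  filter_upwards [hpos, h1] with x hx hx1
  refine ⟨hx, ?_⟩
  simp only [Pi.zero_apply] at hx1
  linarith

theorem no_atom_of_touch (ν : Measure ℝ) [IsProbabilityMeasure ν] {c p x : ℝ} (hx : 0 ≤ x)
    (hline : ∀ y, 0 ≤ y → H ν y ≤ c + p * y) (ht : H ν x = c + p * x) : ν.real {x} = 0 := by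
  have h1 : ν.real (Set.Iic x) ≤ c + p * x := by
    have hlim : Tendsto (fun y => c + p * y) (𝓝[>] x) (𝓝 (c + p * x)) := by
      have : Continuous fun y : ℝ => c + p * y := by fun_prop
      exact this.continuousAt.tendsto.mono_left nhdsWithin_le_nhds
    refine ge_of_tendsto hlim ?_
    filter_upwards [self_mem_nhdsWithin] with y hy
    exact (Iic_le_H ν hy).trans (hline y (hx.trans (le_of_lt hy)))
  rw [← ht, Iic_eq] at h1
  unfold H at h1
  have : 0 ≤ ν.real {x} := measureReal_nonneg
  linarith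

section nash

variable {Ω : Type} [MeasurableSpace Ω] {μ : Measure Ω} [IsProbabilityMeasure μ] {b : Ω → ℝ}
  {κ : Kernel Ω ℝ} [IsMarkovKernel κ]

instance : IsProbabilityMeasure (aggregate μ κ) := by
  unfold aggregate; infer_instance

omit [IsProbabilityMeasure μ] [IsMarkovKernel κ] in
theorem aggregate_apply {s : Set ℝ} (hs : MeasurableSet s) :
    aggregate μ κ s = ∫⁻ ω, κ ω s ∂μ := by
  unfold aggregate
  exact Measure.bind_apply hs κ.aemeasurable

theorem aggregate_eq_zero {s : Set ℝ} (hs : MeasurableSet s) (h : ∀ᵐ ω ∂μ, κ ω s = 0) :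
    aggregate μ κ s = 0 := by
  rw [aggregate_apply hs, lintegral_congr_ae h]
  simp

theorem nash_val (hN : IsNash μ b κ) :
    ∀ᵐ ω ∂μ, payoff (aggregate μ κ) (κ ω) = val (aggregate μ κ) (b ω) := by
  filter_upwards [hN] with ω ⟨h1, h2⟩
  refine le_antisymm (payoff_le_val _ h1) ?_
  refine csSup_le ⟨_, _, h1, rfl⟩ ?_
  rintro r ⟨f, hf, rfl⟩
  exact h2 f hf

theorem nash_touch (hb : ∀ᵐ ω ∂μ, 0 < b ω) (hN : IsNash μ b κ) :
    ∀ᵐ ω ∂μ, ∀ᵐ x ∂(κ ω), 0 ≤ x ∧ (aggregate μ κ).real {x} = 0 ∧
      H (aggregate μ κ) x = val (aggregate μ κ) x := by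
  filter_upwards [hb, hN, nash_val hN] with ω hω ⟨h1, h2⟩ h3
  obtain ⟨p, hp⟩ := support_line (val_concave (aggregate μ κ)) hω
  have ht := touching (aggregate μ κ) (fun x hx => H_le_val _ hx) hp h1 h3
  filter_upwards [ht] with x ⟨hx, hx1⟩
  refine ⟨hx, ?_, ?_⟩
  · refine no_atom_of_touch (aggregate μ κ) (c := val (aggregate μ κ) (b ω) - p * b ω) (p := p) hx
      (fun y hy => ?_) (by rw [hx1]; ring)
    have := (H_le_val (aggregate μ κ) hy).trans (hp y hy)
    linarith
  · refine le_antisymm (H_le_val _ hx) ?_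
    rw [hx1]
    exact hp x hx

theorem nash_no_atoms (hb : ∀ᵐ ω ∂μ, 0 < b ω) (hN : IsNash μ b κ) (x : ℝ) :
    (aggregate μ κ).real {x} = 0 := by
  by_contra h
  apply h
  have h1 : aggregate μ κ {x} = 0 := by
    refine aggregate_eq_zero (measurableSet_singleton x) ?_
    filter_upwards [nash_touch hb hN] with ω hω
    rw [ae_iff] at hω
    refine measure_mono_null ?_ hω
    intro y hy
    rw [Set.mem_singleton_iff] at hy
    subst hy
    intro h2
    exact h h2.2.1
  rw [measureReal_def, h1, ENNReal.toReal_zero]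

theorem nash_H (hb : ∀ᵐ ω ∂μ, 0 < b ω) (hN : IsNash μ b κ) (x : ℝ) :
    H (aggregate μ κ) x = (aggregate μ κ).real (Set.Iic x) := by
  rw [Iic_eq]
  unfold H
  rw [nash_no_atoms hb hN x]
  ring

theorem nash_noatoms (hb : ∀ᵐ ω ∂μ, 0 < b ω) (hN : IsNash μ b κ) :
    NullSingletonClass (aggregate μ κ) := by
  refine ⟨fun x => ?_⟩
  have := nash_no_atoms hb hN x
  rw [measureReal_def, ENNReal.toReal_eq_zero_iff] at this
  exact this.resolve_right (measure_ne_top _ _)

theorem G_continuous (ν : Measure ℝ) [IsProbabilityMeasure ν] [NullSingletonClass ν] :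
    Continuous fun x => ν.real (Set.Iic x) := by
  have h : ∀ x, ν.real (Set.Iic x) = cdf ν x := fun x => (cdf_eq_real ν x).symm
  simp_rw [h]
  rw [continuous_iff_continuousAt]
  intro x
  rw [continuousAt_iff_continuous_left_right]
  refine ⟨?_, (cdf ν).right_continuous x⟩
  rw [← continuousWithinAt_Iio_iff_Iic]
  have h1 := (cdf ν).mono.tendsto_leftLim x
  have h2 : Function.leftLim (cdf ν) x = cdf ν x := by
    have h3 := (cdf ν).measure_singleton x
    rw [measure_cdf, measure_singleton] at h3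
    have h4 := ENNReal.ofReal_eq_zero.1 h3.symm
    exact le_antisymm ((cdf ν).mono.leftLim_le le_rfl) (by linarith)
  rw [h2] at h1
  exact h1

theorem neg_null (hN : IsNash μ b κ) : aggregate μ κ (Set.Iio 0) = 0 := by
  refine aggregate_eq_zero measurableSet_Iio ?_
  filter_upwards [hN] with ω h
  exact h.1.2.1

theorem val_mono (ν : Measure ℝ) [IsProbabilityMeasure ν] {x y : ℝ} (hx : 0 ≤ x) (h : x ≤ y) :
    val ν x ≤ val ν y := by
  rcases h.eq_or_lt with h | h
  · rw [h]
  · obtain ⟨p, hp⟩ := support_line (val_concave ν) (hx.trans_lt h)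
    have hp0 : 0 ≤ p := by
      by_contra hneg
      push Not at hneg
      -- far to the right the line is negative
      have h1 : ∀ z, 0 ≤ z → 0 ≤ val ν y + p * (z - y) := fun z hz =>
        ((H_nonneg ν z).trans (H_le_val ν hz)).trans (hp z hz)
      have h2 := h1 (y + (val ν y + 1) / (-p)) (by
        have h3 : 0 ≤ val ν y := (H_nonneg ν y).trans (H_le_val ν (hx.trans h.le))
        have h4 : 0 < -p := by linarith
        have h5 : 0 ≤ y := hx.trans h.le
        positivity)
      have h3 : val ν y + p * (y + (val ν y + 1) / (-p) - y) = -1 := by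
        have : p ≠ 0 := hneg.ne
        field_simp
        ring
      linarith
    have h1 := hp x hx
    nlinarith

/-- the distribution function is the value function -/
theorem nash_G (hb : ∀ᵐ ω ∂μ, 0 < b ω) (hN : IsNash μ b κ) {x : ℝ} (hx : 0 ≤ x) :
    (aggregate μ κ).real (Set.Iic x) = val (aggregate μ κ) x := by
  set ν := aggregate μ κ with hν
  have hna : NullSingletonClass ν := nash_noatoms hb hN
  have hG : ∀ y, H ν y = ν.real (Set.Iic y) := nash_H hb hN
  have hle : ∀ y, 0 ≤ y → ν.real (Set.Iic y) ≤ val ν y := fun y hy => by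
    rw [← hG]; exact H_le_val ν hy
  rcases hx.eq_or_lt with h0 | h0
  · -- at zero
    subst h0
    have hiv : val ν 0 ≤ 0 := by
      refine csSup_le ⟨_, _, dirac_strategy le_rfl, rfl⟩ ?_
      rintro r ⟨f, ⟨hp, hn, hi, hm⟩, rfl⟩
      -- a strategy with mean zero is the unit mass at zero
      have hpos : 0 ≤ᵐ[f] fun x : ℝ => x := by
        change ∀ᵐ x ∂f, (0 : ℝ) ≤ x
        rw [ae_iff]
        have : {x : ℝ | ¬ 0 ≤ x} = Set.Iio 0 := by ext x; simp
        rw [this, hn]
      have h1 := (integral_eq_zero_iff_of_nonneg_ae hpos hi).1 hm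
      have h2 : payoff ν f = ∫ x, H ν 0 ∂f := by
        refine integral_congr_ae ?_
        filter_upwards [h1] with x hx
        simp only [Pi.zero_apply] at hx
        rw [hx]
      rw [h2, hG]
      have h3 : ν (Set.Iic 0) = 0 := by
        rw [← Set.Iio_union_right, measure_union_null_iff]
        exact ⟨neg_null hN, measure_singleton 0⟩
      rw [measureReal_def, h3]
      simp
    have h4 : 0 ≤ ν.real (Set.Iic 0) := measureReal_nonneg
    have h5 := hle 0 le_rfl
    linarith
  · by_contra hne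
    have hlt : ν.real (Set.Iic x) < val ν x := lt_of_le_of_ne (hle x hx) hne
    have hcont : ContinuousOn (val ν) (Set.Ioi 0) :=
      ((val_concave ν).subset Set.Ioi_subset_Ici_self (convex_Ioi 0)).continuousOn isOpen_Ioi
    have hGc := G_continuous ν
    set S : Set ℝ := {y | x ≤ y ∧ ν.real (Set.Iic y) = val ν y} with hS
    have hSclosed : IsClosed S := by
      have h1 : S = {y | y ∈ Set.Ici x ∧ ν.real (Set.Iic y) = val ν y} := rfl
      have h2 : ContinuousOn (fun y => ν.real (Set.Iic y) - val ν y) (Set.Ici x) :=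
        hGc.continuousOn.sub (hcont.mono fun y hy => h0.trans_le hy)
      have h3 := h2.preimage_isClosed_of_isClosed isClosed_Ici isClosed_singleton (t := {0})
      have h4 : S = Set.Ici x ∩ (fun y => ν.real (Set.Iic y) - val ν y) ⁻¹' {0} := by
        ext y
        simp only [hS, Set.mem_ofPred_eq, Set.mem_inter_iff, Set.mem_Ici, Set.mem_preimage,
          Set.mem_singleton_iff, sub_eq_zero]
      rw [h4]; exact h3
    have htouch := nash_touch hb hN
    rw [← hν] at htouch
    have hnull : ∀ s : Set ℝ, MeasurableSet s → (∀ y ∈ s, 0 ≤ y → ν.real (Set.Iic y) ≠ val ν y) →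
        ν s = 0 := by
      intro s hs h1
      rw [hν]
      refine aggregate_eq_zero hs ?_
      filter_upwards [htouch] with ω hω
      rw [ae_iff] at hω
      refine measure_mono_null ?_ hω
      intro y hy h2
      refine h1 y hy h2.1 ?_
      rw [← hG, h2.2.2]
    rcases S.eq_empty_or_nonempty with he | hne'
    · have h1 : ν (Set.Ici x) = 0 := by
        refine hnull _ measurableSet_Ici fun y hy _ h2 => ?_
        have : y ∈ S := ⟨hy, h2⟩
        rw [he] at this
        exact this
      have h2 : ν.real (Set.Iic x) = 1 := by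
        have h3 : ν.real (Set.Ioi x) = 0 := by
          rw [measureReal_def, measure_mono_null Set.Ioi_subset_Ici_self h1, ENNReal.toReal_zero]
        have h4 := probReal_compl_eq_one_sub (μ := ν) (s := Set.Iic x) measurableSet_Iic
        rw [Set.compl_Iic, h3] at h4
        linarith
      have h3 := val_le_one ν hx
      linarith
    · have hbdd : BddBelow S := ⟨x, fun y hy => hy.1⟩
      have hd := hSclosed.csInf_mem hne' hbdd
      set d := sInf S with hd'
      have hxd : x < d := by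
        refine lt_of_le_of_ne hd.1 fun h => ?_
        rw [h] at hlt
        exact hlt.ne hd.2
      have h1 : ν (Set.Ioo x d) = 0 := by
        refine hnull _ measurableSet_Ioo fun y hy _ h2 => ?_
        have : d ≤ y := csInf_le hbdd ⟨hy.1.le, h2⟩
        exact absurd hy.2 (not_lt.2 this)
      have h2 : ν.real (Set.Iic d) = ν.real (Set.Iic x) := by
        have h3 : Set.Iic d = Set.Iic x ∪ Set.Ioc x d := (Set.Iic_union_Ioc_eq_Iic hxd.le).symm
        have h4 : ν.real (Set.Ioc x d) = 0 := by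
          rw [measureReal_def, ← Ioo_ae_eq_Ioc.measure_eq, h1, ENNReal.toReal_zero]
        rw [h3, measureReal_union (Set.Iic_disjoint_Ioc le_rfl) measurableSet_Ioc, h4, add_zero]
      have h3 := val_mono ν hx hxd.le
      have h4 := hd.2
      linarith

theorem nash_payoff (hb : ∀ᵐ ω ∂μ, 0 < b ω) (hN : IsNash μ b κ) :
    ∀ᵐ ω ∂μ, payoff (aggregate μ κ) (κ ω) = (aggregate μ κ).real (Set.Iic (b ω)) := by
  filter_upwards [hb, nash_val hN] with ω h1 h2
  rw [h2, nash_G hb hN h1.le]

theorem nash_concave (hb : ∀ᵐ ω ∂μ, 0 < b ω) (hN : IsNash μ b κ) :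
    ConcaveOn ℝ (Set.Ici 0) fun x => (aggregate μ κ).real (Set.Iic x) := by
  refine (val_concave (aggregate μ κ)).congr fun x hx => ?_
  exact (nash_G hb hN hx).symm

end nash

end Q289.PL
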