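import Pool.Agent.Q289.PL.One

/-!
# The Population Lotto game: uniqueness of the aggregate strategy
-/

set_option autoImplicit false

open MeasureTheory ProbabilityTheory Filter Topology

namespace Q289.PL

/-- distribution function -/
noncomputable def G (ν : Measure ℝ) (x : ℝ) : ℝ := ν.real (Set.Iic x)

theorem G_nonneg (ν : Measure ℝ) (x : ℝ) : 0 ≤ G ν x := measureReal_nonneg

theorem G_le_one (ν : Measure ℝ) [IsProbabilityMeasure ν] (x : ℝ) : G ν x ≤ 1 :=
  measureReal_le_one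

theorem G_mono (ν : Measure ℝ) [IsProbabilityMeasure ν] : Monotone (G ν) := fun _ _ h =>
  measureReal_mono (Set.Iic_subset_Iic.2 h)

theorem G_integrable (ν f : Measure ℝ) [IsProbabilityMeasure ν] [IsProbabilityMeasure f] :
    Integrable (G ν) f := by
  refine Integrable.of_bound (G_mono ν).measurable.aestronglyMeasurable 1
    (Eventually.of_forall fun x => ?_)
  rw [Real.norm_of_nonneg (G_nonneg ν x)]
  exact G_le_one ν x

theorem integral_G (ν ν' : Measure ℝ) [IsProbabilityMeasure ν] [IsProbabilityMeasure ν'] :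
    ∫ y, G ν y ∂ν' = (ν'.prod ν).real {p | p.2 ≤ p.1} := by
  have hs : MeasurableSet {p : ℝ × ℝ | p.2 ≤ p.1} := measurableSet_le measurable_snd measurable_fst
  rw [measureReal_def, Measure.prod_apply hs, ← integral_toReal]
  · rfl
  · exact (measurable_measure_prodMk_left hs).aemeasurable
  · exact Eventually.of_forall fun x => measure_lt_top _ _

theorem cross_sum (ν ν' : Measure ℝ) [IsProbabilityMeasure ν] [IsProbabilityMeasure ν']
    [NullSingletonClass ν] :
    ∫ y, G ν y ∂ν' + ∫ y, G ν' y ∂ν = 1 := by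
  rw [integral_G, integral_G]
  have hs1 : MeasurableSet {p : ℝ × ℝ | p.2 ≤ p.1} :=
    measurableSet_le measurable_snd measurable_fst
  have hs2 : MeasurableSet {p : ℝ × ℝ | p.1 ≤ p.2} :=
    measurableSet_le measurable_fst measurable_snd
  have h1 : (ν.prod ν').real {p | p.2 ≤ p.1} = (ν'.prod ν).real {p | p.1 ≤ p.2} := by
    rw [← Measure.prod_swap (μ := ν') (ν := ν), measureReal_def, measureReal_def,
      Measure.map_apply measurable_swap hs1]
    rfl
  rw [h1]
  have h2 := measureReal_union_add_inter (μ := ν'.prod ν) (s := {p : ℝ × ℝ | p.2 ≤ p.1}) hs2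
  have h3 : {p : ℝ × ℝ | p.2 ≤ p.1} ∪ {p | p.1 ≤ p.2} = Set.univ := by
    ext p; simp [le_total]
  have h4 : (ν'.prod ν).real ({p : ℝ × ℝ | p.2 ≤ p.1} ∩ {p | p.1 ≤ p.2}) = 0 := by
    have h5 : {p : ℝ × ℝ | p.2 ≤ p.1} ∩ {p | p.1 ≤ p.2} = {p | p.2 = p.1} := by
      ext p
      simp only [Set.mem_inter_iff, Set.mem_ofPred_eq]
      exact ⟨fun h => le_antisymm h.1 h.2, fun h => ⟨h.le, h.ge⟩⟩
    have hs3 : MeasurableSet {p : ℝ × ℝ | p.2 = p.1} :=
      measurableSet_eq_fun measurable_snd measurable_fst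
    rw [h5, measureReal_def, Measure.prod_apply hs3]
    have h6 : ∀ x : ℝ, ν (Prod.mk x ⁻¹' {p : ℝ × ℝ | p.2 = p.1}) = 0 := by
      intro x
      have : Prod.mk x ⁻¹' {p : ℝ × ℝ | p.2 = p.1} = {x} := by ext y; simp
      rw [this, measure_singleton]
    simp
  rw [h3, probReal_univ, h4, add_zero] at h2
  exact h2.symm

theorem integral_aggregate {Ω : Type} [MeasurableSpace Ω] (μ : Measure Ω) [IsProbabilityMeasure μ]
    (κ : Kernel Ω ℝ) [IsMarkovKernel κ] (ν : Measure ℝ) [IsProbabilityMeasure ν] :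
    ∫ x, G ν x ∂(aggregate μ κ) = ∫ ω, ∫ x, G ν x ∂(κ ω) ∂μ := by
  have hi : Integrable (G ν) (aggregate μ κ) := G_integrable ν (aggregate μ κ)
  unfold aggregate at hi ⊢
  rw [Measure.comp_eq_comp_const_apply] at hi ⊢
  rw [Kernel.integral_comp hi, Kernel.const_apply]

theorem integrable_inner {Ω : Type} [MeasurableSpace Ω] (μ : Measure Ω) [IsProbabilityMeasure μ]
    (κ : Kernel Ω ℝ) [IsMarkovKernel κ] (ν : Measure ℝ) [IsProbabilityMeasure ν] :
    Integrable (fun ω => ∫ x, G ν x ∂(κ ω)) μ := by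
  have hi : Integrable (G ν) (aggregate μ κ) := G_integrable ν (aggregate μ κ)
  unfold aggregate at hi
  have := Measure.integrable_integral_norm_of_integrable_comp hi
  refine this.congr (Eventually.of_forall fun ω => ?_)
  refine integral_congr_ae (Eventually.of_forall fun x => ?_)
  exact Real.norm_of_nonneg (G_nonneg ν x)

theorem nonneg_ae {b : ℝ} {f : Measure ℝ} (hf : IsStrategy b f) : ∀ᵐ x ∂f, 0 ≤ x := by
  rw [ae_iff]
  have : {x : ℝ | ¬ 0 ≤ x} = Set.Iio 0 := by ext x; simp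
  rw [this, hf.2.1]

theorem mean_of_le {b x : ℝ} {f : Measure ℝ} (hf : IsStrategy b f) (h : f (Set.Iio x) = 0) :
    x ≤ b ∧ (b = x → f {x} = 1) := by
  obtain ⟨hp, hn, hi, hm⟩ := hf
  have h1 : ∀ᵐ y ∂f, x ≤ y := by
    rw [ae_iff]
    have : {y : ℝ | ¬ x ≤ y} = Set.Iio x := by ext y; simp
    rw [this, h]
  have hint : ∫ y, (y - x) ∂f = b - x := by
    rw [integral_sub hi (integrable_const _), hm]; simp
  have hnn : 0 ≤ᵐ[f] fun y => y - x := by
    filter_upwards [h1] with y hy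
    simp only [Pi.zero_apply]; linarith
  have h2 : 0 ≤ b - x := by rw [← hint]; exact integral_nonneg_of_ae hnn
  refine ⟨by linarith, fun hbx => ?_⟩
  have h3 := (integral_eq_zero_iff_of_nonneg_ae hnn (hi.sub (integrable_const _))).1
    (by rw [hint, hbx, sub_self])
  have h4 : ∀ᵐ y ∂f, y ∈ ({x} : Set ℝ) := by
    filter_upwards [h3] with y hy
    simp only [Pi.zero_apply] at hy
    rw [Set.mem_singleton_iff]; linarith
  exact (mem_ae_iff_prob_eq_one (measurableSet_singleton x)).1 h4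

theorem mean_of_ge {b x : ℝ} {f : Measure ℝ} (hf : IsStrategy b f) (h : f (Set.Ioi x) = 0) :
    b ≤ x ∧ (b = x → f {x} = 1) := by
  obtain ⟨hp, hn, hi, hm⟩ := hf
  have h1 : ∀ᵐ y ∂f, y ≤ x := by
    rw [ae_iff]
    have : {y : ℝ | ¬ y ≤ x} = Set.Ioi x := by ext y; simp
    rw [this, h]
  have hint : ∫ y, (x - y) ∂f = x - b := by
    rw [integral_sub (integrable_const _) hi, hm]; simp
  have hnn : 0 ≤ᵐ[f] fun y => x - y := by
    filter_upwards [h1] with y hy
    simp only [Pi.zero_apply]; linarith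
  have h2 : 0 ≤ x - b := by rw [← hint]; exact integral_nonneg_of_ae hnn
  refine ⟨by linarith, fun hbx => ?_⟩
  have h3 := (integral_eq_zero_iff_of_nonneg_ae hnn ((integrable_const _).sub hi)).1
    (by rw [hint, hbx, sub_self])
  have h4 : ∀ᵐ y ∂f, y ∈ ({x} : Set ℝ) := by
    filter_upwards [h3] with y hy
    simp only [Pi.zero_apply] at hy
    rw [Set.mem_singleton_iff]; linarith
  exact (mem_ae_iff_prob_eq_one (measurableSet_singleton x)).1 h4

/-- if almost no player bets on both sides of `x`, then the distribution function at `x` is the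
proportion of players with budget smaller than `x` -/
theorem G_of_sides {Ω : Type} [MeasurableSpace Ω] {μ : Measure Ω} [IsProbabilityMeasure μ]
    {b : Ω → ℝ} (hbm : Measurable b) {κ : Kernel Ω ℝ} [IsMarkovKernel κ]
    (hb : ∀ᵐ ω ∂μ, 0 < b ω) (hN : IsNash μ b κ) {x : ℝ}
    (hs : ∀ᵐ ω ∂μ, κ ω (Set.Iio x) = 0 ∨ κ ω (Set.Ioi x) = 0) :
    G (aggregate μ κ) x = (μ.map b).real (Set.Iio x) := by
  have hna : NullSingletonClass (aggregate μ κ) := nash_noatoms hb hN
  have h1 : aggregate μ κ {x} = 0 := measure_singleton x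
  rw [aggregate_apply (measurableSet_singleton x),
    lintegral_eq_zero_iff (Kernel.measurable_coe κ (measurableSet_singleton x))] at h1
  have h2 : ∀ᵐ ω ∂μ, κ ω (Set.Iic x) = (b ⁻¹' Set.Iio x).indicator 1 ω := by
    filter_upwards [hN, hs, h1] with ω ⟨hst, _⟩ hside hat
    simp only [Pi.zero_apply] at hat
    have hun : κ ω (Set.Iic x) = κ ω (Set.Iio x) := by
      rw [← Set.Iio_union_right]
      refine le_antisymm ((measure_union_le _ _).trans ?_) (measure_mono Set.subset_union_left)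
      rw [hat, add_zero]
    rcases lt_trichotomy (b ω) x with h | h | h
    · have hmem : ω ∈ b ⁻¹' Set.Iio x := h
      rw [Set.indicator_of_mem hmem, Pi.one_apply]
      rcases hside with h3 | h3
      · exact absurd (mean_of_le hst h3).1 (not_le.2 h)
      · have h4 := prob_compl_eq_one_sub (μ := κ ω) (s := Set.Ioi x) measurableSet_Ioi
        rw [Set.compl_Ioi, h3, tsub_zero] at h4
        exact h4
    · exfalso
      rcases hside with h3 | h3
      · have := (mean_of_le hst h3).2 h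
        rw [hat] at this
        exact zero_ne_one this
      · have := (mean_of_ge hst h3).2 h
        rw [hat] at this
        exact zero_ne_one this
    · have hmem : ω ∉ b ⁻¹' Set.Iio x := not_lt.2 h.le
      rw [Set.indicator_of_notMem hmem]
      rcases hside with h3 | h3
      · rw [hun, h3]
      · exact absurd (mean_of_ge hst h3).1 (not_le.2 h)
  unfold G
  rw [measureReal_def, measureReal_def, aggregate_apply measurableSet_Iic, lintegral_congr_ae h2,
    lintegral_indicator_one (hbm measurableSet_Iio), Measure.map_apply hbm measurableSet_Iio]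

/-- if a strategy is optimal against `ν` and charges both sides of `x`, then the distribution
function of `ν` agrees with a line at almost every point and at `x` -/
theorem line_of_optimal {ν : Measure ℝ} [IsProbabilityMeasure ν]
    (hconc : ConcaveOn ℝ (Set.Ici 0) (G ν)) (hH : ∀ x, H ν x = G ν x)
    {b : ℝ} (hb : 0 < b) {f : Measure ℝ} (hf : IsStrategy b f) (hopt : payoff ν f = G ν b) :
    ∃ c p : ℝ, (∀ᵐ y ∂f, 0 ≤ y ∧ G ν y = c + p * y) ∧
      ∀ y1 y y2 : ℝ, 0 ≤ y1 → y1 < y → y < y2 → G ν y1 = c + p * y1 → G ν y2 = c + p * y2 →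
        G ν y = c + p * y := by
  obtain ⟨p, hp⟩ := support_line hconc hb
  have ht := touching ν (φ := G ν) (fun x _ => (hH x).le) hp hf hopt
  refine ⟨G ν b - p * b, p, ?_, ?_⟩
  · filter_upwards [ht] with y ⟨h1, h2⟩
    refine ⟨h1, ?_⟩
    rw [← hH, h2]; ring
  · intro y1 y y2 h0 h1 h2 e1 e2
    refine le_antisymm ?_ ?_
    · have := hp y (h0.trans h1.le)
      linarith
    · have hy12 : 0 < y2 - y1 := by linarith
      have ha : 0 ≤ (y2 - y) / (y2 - y1) := div_nonneg (by linarith) hy12.le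
      have hb : 0 ≤ (y - y1) / (y2 - y1) := div_nonneg (by linarith) hy12.le
      have hab : (y2 - y) / (y2 - y1) + (y - y1) / (y2 - y1) = 1 := by
        rw [← add_div, div_eq_one_iff_eq hy12.ne']; ring
      have h3 := hconc.2 (show y1 ∈ Set.Ici (0 : ℝ) from h0)
        (show y2 ∈ Set.Ici (0 : ℝ) from by
          change 0 ≤ y2; linarith) ha hb hab
      simp only [smul_eq_mul] at h3
      have h4 : (y2 - y) / (y2 - y1) * y1 + (y - y1) / (y2 - y1) * y2 = y := by
        field_simp; ring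
      rw [h4, e1, e2] at h3
      refine le_trans (le_of_eq ?_) h3
      field_simp
      ring

/-- the maximum principle -/
theorem max_principle {D : ℝ → ℝ} (hc : Continuous D) (h0 : D 0 ≤ 0)
    (hinf : Tendsto D atTop (𝓝 0))
    (hloc : ∀ x, 0 < x → 0 < D x → ∃ y1 y2 c q : ℝ, 0 ≤ y1 ∧ y1 < x ∧ x < y2 ∧
      D y1 = c + q * y1 ∧ D x = c + q * x ∧ D y2 = c + q * y2) (x : ℝ) (hx : 0 ≤ x) :
    D x ≤ 0 := by
  by_contra hcon
  push Not at hcon
  obtain ⟨R, hR⟩ := eventually_atTop.1 (hinf.eventually (gt_mem_nhds hcon))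
  set R' := max R x with hR'
  have hxR : x ≤ R' := le_max_right _ _
  obtain ⟨z0, hz0, hmax⟩ := (isCompact_Icc (a := (0 : ℝ)) (b := R')).exists_isMaxOn
    ⟨x, hx, hxR⟩ hc.continuousOn
  have hM : D x ≤ D z0 := hmax ⟨hx, hxR⟩
  have hglob : ∀ y, 0 ≤ y → D y ≤ D z0 := by
    intro y hy
    rcases le_total y R' with h | h
    · exact hmax ⟨hy, h⟩
    · exact (hR y ((le_max_left _ _).trans h)).le.trans hM
  set T : Set ℝ := Set.Icc 0 R' ∩ D ⁻¹' {D z0} with hT
  have hTc : IsClosed T := isClosed_Icc.inter (isClosed_singleton.preimage hc)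
  have hTne : T.Nonempty := ⟨z0, hz0, rfl⟩
  have hTb : BddBelow T := ⟨0, fun y hy => hy.1.1⟩
  have hz := hTc.csInf_mem hTne hTb
  set z := sInf T with hzdef
  have hDz : D z = D z0 := hz.2
  have hzpos : 0 < z := by
    rcases hz.1.1.eq_or_lt with h | h
    · rw [← h] at hDz
      linarith
    · exact h
  obtain ⟨y1, y2, c, q, h1, h2, h3, e1, e2, e3⟩ := hloc z hzpos (by linarith)
  have h4 := hglob y1 h1
  have h5 := hglob y2 (by linarith)
  have h6 : D y1 = D z0 := by
    rw [← hDz] at h4 h5 ⊢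
    rw [e1, e2] at h4
    rw [e2, e3] at h5
    have h7 : q ≤ 0 := by
      by_contra h; push Not at h; nlinarith
    have h8 : 0 ≤ q := by
      by_contra h; push Not at h; nlinarith
    have h9 : q = 0 := le_antisymm h7 h8
    rw [e1, e2, h9]; ring
  have h7 : y1 ∈ T := ⟨⟨h1, h2.le.trans hz.1.2⟩, h6⟩
  exact absurd (csInf_le hTb h7) (not_le.2 h2)

section two

variable {Ω Ω' : Type} [MeasurableSpace Ω] [MeasurableSpace Ω'] {μ : Measure Ω} {μ' : Measure Ω'}
  [IsProbabilityMeasure μ] [IsProbabilityMeasure μ'] {b : Ω → ℝ} {b' : Ω' → ℝ}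
  {κ : Kernel Ω ℝ} {κ' : Kernel Ω' ℝ} [IsMarkovKernel κ] [IsMarkovKernel κ']

theorem payoff_eq (hb : ∀ᵐ ω ∂μ, 0 < b ω) (hN : IsNash μ b κ) (f : Measure ℝ) :
    payoff (aggregate μ κ) f = ∫ x, G (aggregate μ κ) x ∂f := by
  unfold payoff
  have : H (aggregate μ κ) = G (aggregate μ κ) := funext fun x => nash_H hb hN x
  rw [this]

theorem mean_budget (hb : ∀ᵐ ω ∂μ, 0 < b ω) (hN : IsNash μ b κ) :
    ∫ ω, G (aggregate μ κ) (b ω) ∂μ = 1 / 2 := by
  have hna : NullSingletonClass (aggregate μ κ) := nash_noatoms hb hN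
  have h1 := cross_sum (aggregate μ κ) (aggregate μ κ)
  have h2 := integral_aggregate μ κ (aggregate μ κ)
  have h3 : ∫ ω, ∫ x, G (aggregate μ κ) x ∂(κ ω) ∂μ = ∫ ω, G (aggregate μ κ) (b ω) ∂μ := by
    refine integral_congr_ae ?_
    filter_upwards [nash_payoff hb hN] with ω hω
    rw [payoff_eq hb hN] at hω
    exact hω
  rw [h3] at h2
  linarith

omit [IsProbabilityMeasure μ'] in
theorem mean_budget' (hbm : Measurable b) (hbm' : Measurable b') (hb : ∀ᵐ ω ∂μ, 0 < b ω)
    (hN : IsNash μ b κ) (hB : μ.map b = μ'.map b') :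
    ∫ ω, G (aggregate μ κ) (b' ω) ∂μ' = 1 / 2 := by
  rw [← mean_budget hb hN, ← integral_map hbm.aemeasurable
    (G_mono (aggregate μ κ)).measurable.aestronglyMeasurable, hB, integral_map hbm'.aemeasurable
    (G_mono (aggregate μ κ)).measurable.aestronglyMeasurable]

/-- the strategies of an equilibrium are optimal against the aggregate of the other one -/
theorem cross_opt (hbm : Measurable b) (hbm' : Measurable b') (hb : ∀ᵐ ω ∂μ, 0 < b ω)
    (hb' : ∀ᵐ ω ∂μ', 0 < b' ω) (hN : IsNash μ b κ) (hN' : IsNash μ' b' κ')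
    (hB : μ.map b = μ'.map b') :
    ∀ᵐ ω ∂μ', payoff (aggregate μ κ) (κ' ω) = G (aggregate μ κ) (b' ω) := by
  have hna : NullSingletonClass (aggregate μ κ) := nash_noatoms hb hN
  have hle : ∀ᵐ ω ∂μ', ∫ x, G (aggregate μ κ) x ∂(κ' ω) ≤ G (aggregate μ κ) (b' ω) := by
    filter_upwards [hb', hN'] with ω h1 ⟨h2, _⟩
    rw [← payoff_eq hb hN]
    refine (payoff_le_val _ h2).trans ?_
    rw [← nash_G hb hN h1.le]
    rfl
  have hle' : ∀ᵐ ω ∂μ, ∫ x, G (aggregate μ' κ') x ∂(κ ω) ≤ G (aggregate μ' κ') (b ω) := by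
    filter_upwards [hb, hN] with ω h1 ⟨h2, _⟩
    rw [← payoff_eq hb' hN']
    refine (payoff_le_val _ h2).trans ?_
    rw [← nash_G hb' hN' h1.le]
    rfl
  have hE := mean_budget' hbm hbm' hb hN hB
  have hE' := mean_budget' hbm' hbm hb' hN' hB.symm
  have hcross := cross_sum (aggregate μ κ) (aggregate μ' κ')
  rw [integral_aggregate μ' κ' (aggregate μ κ), integral_aggregate μ κ (aggregate μ' κ')] at hcross
  have hGb : Integrable (fun ω => G (aggregate μ κ) (b' ω)) μ' := by
    refine Integrable.of_bound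
      ((G_mono (aggregate μ κ)).measurable.comp hbm').aestronglyMeasurable 1
      (Eventually.of_forall fun ω => ?_)
    rw [Real.norm_of_nonneg (G_nonneg _ _)]
    exact G_le_one _ _
  have hGb' : Integrable (fun ω => G (aggregate μ' κ') (b ω)) μ := by
    refine Integrable.of_bound
      ((G_mono (aggregate μ' κ')).measurable.comp hbm).aestronglyMeasurable 1
      (Eventually.of_forall fun ω => ?_)
    rw [Real.norm_of_nonneg (G_nonneg _ _)]
    exact G_le_one _ _
  have h1 := integral_mono_ae (integrable_inner μ' κ' (aggregate μ κ)) hGb hle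
  have h2 := integral_mono_ae (integrable_inner μ κ (aggregate μ' κ')) hGb' hle'
  have h3 : ∫ ω, (G (aggregate μ κ) (b' ω) - ∫ x, G (aggregate μ κ) x ∂(κ' ω)) ∂μ' = 0 := by
    rw [integral_sub hGb (integrable_inner μ' κ' (aggregate μ κ))]
    linarith
  have hnn : 0 ≤ᵐ[μ'] fun ω => G (aggregate μ κ) (b' ω) -
      ∫ x, G (aggregate μ κ) x ∂(κ' ω) := by
    filter_upwards [hle] with ω h
    simp only [Pi.zero_apply]; linarith
  have h4 := (integral_eq_zero_iff_of_nonneg_ae hnn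
    (hGb.sub (integrable_inner μ' κ' (aggregate μ κ)))).1 h3
  filter_upwards [h4] with ω hω
  simp only [Pi.zero_apply] at hω
  rw [payoff_eq hb hN]
  linarith

/-- points to the left and to the right of `x` where both distribution functions agree with their
lines -/
theorem three_points {ν ν' : Measure ℝ} [IsProbabilityMeasure ν] [IsProbabilityMeasure ν']
    (hconc : ConcaveOn ℝ (Set.Ici 0) (G ν)) (hH : ∀ x, H ν x = G ν x)
    (hconc' : ConcaveOn ℝ (Set.Ici 0) (G ν')) (hH' : ∀ x, H ν' x = G ν' x)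
    {c : ℝ} (hc : 0 < c) {f : Measure ℝ} (hf : IsStrategy c f) (hopt : payoff ν f = G ν c)
    (hopt' : payoff ν' f = G ν' c) {x : ℝ} (h1 : f (Set.Iio x) ≠ 0) (h2 : f (Set.Ioi x) ≠ 0) :
    ∃ y1 y2 c q : ℝ, 0 ≤ y1 ∧ y1 < x ∧ x < y2 ∧ G ν y1 - G ν' y1 = c + q * y1 ∧
      G ν x - G ν' x = c + q * x ∧ G ν y2 - G ν' y2 = c + q * y2 := by
  obtain ⟨c1, p1, ha1, hl1⟩ := line_of_optimal hconc hH hc hf hopt
  obtain ⟨c2, p2, ha2, hl2⟩ := line_of_optimal hconc' hH' hc hf hopt'
  have ha := ha1.and ha2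
  have hex : ∀ s : Set ℝ, f s ≠ 0 →
      ∃ y ∈ s, (0 ≤ y ∧ G ν y = c1 + p1 * y) ∧ (0 ≤ y ∧ G ν' y = c2 + p2 * y) := by
    intro s hs
    by_contra hcon
    push Not at hcon
    apply hs
    rw [ae_iff] at ha
    refine measure_mono_null ?_ ha
    intro y hy hcon2
    exact hcon y hy hcon2.1 hcon2.2.1 hcon2.2.2
  obtain ⟨y1, hy1, ⟨hy10, e1⟩, ⟨_, e1'⟩⟩ := hex _ h1
  obtain ⟨y2, hy2, ⟨hy20, e2⟩, ⟨_, e2'⟩⟩ := hex _ h2
  have e3 := hl1 y1 x y2 hy10 hy1 hy2 e1 e2
  have e3' := hl2 y1 x y2 hy10 hy1 hy2 e1' e2'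
  refine ⟨y1, y2, c1 - c2, p1 - p2, hy10, hy1, hy2, ?_, ?_, ?_⟩
  · rw [e1, e1']; ring
  · rw [e3, e3']; ring
  · rw [e2, e2']; ring

theorem G_tendsto (ν : Measure ℝ) [IsProbabilityMeasure ν] : Tendsto (G ν) atTop (𝓝 1) := by
  have h : G ν = fun x => cdf ν x := funext fun x => (cdf_eq_real ν x).symm
  rw [h]
  exact tendsto_cdf_atTop ν

theorem G_le (hbm : Measurable b) (hbm' : Measurable b') (hb : ∀ᵐ ω ∂μ, 0 < b ω)
    (hb' : ∀ᵐ ω ∂μ', 0 < b' ω) (hN : IsNash μ b κ) (hN' : IsNash μ' b' κ')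
    (hB : μ.map b = μ'.map b') (x : ℝ) (hx : 0 ≤ x) :
    G (aggregate μ κ) x - G (aggregate μ' κ') x ≤ 0 := by
  have hna : NullSingletonClass (aggregate μ κ) := nash_noatoms hb hN
  have hna' : NullSingletonClass (aggregate μ' κ') := nash_noatoms hb' hN'
  have hconc : ConcaveOn ℝ (Set.Ici 0) (G (aggregate μ κ)) := nash_concave hb hN
  have hconc' : ConcaveOn ℝ (Set.Ici 0) (G (aggregate μ' κ')) := nash_concave hb' hN'
  have hH : ∀ x, H (aggregate μ κ) x = G (aggregate μ κ) x := nash_H hb hN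
  have hH' : ∀ x, H (aggregate μ' κ') x = G (aggregate μ' κ') x := nash_H hb' hN'
  refine max_principle (D := fun x => G (aggregate μ κ) x - G (aggregate μ' κ') x)
    ((G_continuous _).sub (G_continuous _)) ?_ ?_ ?_ x hx
  · have h1 : G (aggregate μ κ) 0 = 0 := by
      unfold G
      rw [measureReal_def, ← Set.Iio_union_right, measure_union_null (neg_null hN)
        (measure_singleton 0)]
      rfl
    have h2 := G_nonneg (aggregate μ' κ') 0
    linarith
  · have := (G_tendsto (aggregate μ κ)).sub (G_tendsto (aggregate μ' κ'))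
    rwa [sub_self] at this
  · intro x hx hD
    -- some player bets on both sides of `x`
    have hsome : ¬ ((∀ᵐ ω ∂μ, κ ω (Set.Iio x) = 0 ∨ κ ω (Set.Ioi x) = 0) ∧
        (∀ᵐ ω ∂μ', κ' ω (Set.Iio x) = 0 ∨ κ' ω (Set.Ioi x) = 0)) := by
      rintro ⟨h1, h2⟩
      rw [G_of_sides hbm hb hN h1, G_of_sides hbm' hb' hN' h2, hB, sub_self] at hD
      exact lt_irrefl _ hD
    rw [not_and_or] at hsome
    rcases hsome with h | h
    · have hgood := (hb.and (hN.and ((nash_payoff hb hN).and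
        (cross_opt hbm' hbm hb' hb hN' hN hB.symm))))
      have hfreq : ∃ᶠ ω in ae μ, ¬ (κ ω (Set.Iio x) = 0 ∨ κ ω (Set.Ioi x) = 0) :=
        not_eventually.1 h
      obtain ⟨ω, hω, hbω, ⟨hst, _⟩, hp, hp'⟩ := (hfreq.and_eventually hgood).exists
      rw [not_or] at hω
      exact three_points hconc hH hconc' hH' hbω hst hp hp' hω.1 hω.2
    · have hgood := (hb'.and (hN'.and ((nash_payoff hb' hN').and
        (cross_opt hbm hbm' hb hb' hN hN' hB))))
      have hfreq : ∃ᶠ ω in ae μ', ¬ (κ' ω (Set.Iio x) = 0 ∨ κ' ω (Set.Ioi x) = 0) :=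
        not_eventually.1 h
      obtain ⟨ω, hω, hbω, ⟨hst, _⟩, hp', hp⟩ := (hfreq.and_eventually hgood).exists
      rw [not_or] at hω
      exact three_points hconc hH hconc' hH' hbω hst hp hp' hω.1 hω.2

theorem unique (hbm : Measurable b) (hbm' : Measurable b') (hb : ∀ᵐ ω ∂μ, 0 < b ω)
    (hb' : ∀ᵐ ω ∂μ', 0 < b' ω) (hN : IsNash μ b κ) (hN' : IsNash μ' b' κ')
    (hB : μ.map b = μ'.map b') : aggregate μ κ = aggregate μ' κ' := by
  have hneg : ∀ x : ℝ, x < 0 → aggregate μ κ (Set.Iic x) = aggregate μ' κ' (Set.Iic x) := by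
    intro x hx
    rw [measure_mono_null (Set.Iic_subset_Iio.2 hx) (neg_null hN),
      measure_mono_null (Set.Iic_subset_Iio.2 hx) (neg_null hN')]
  refine Measure.ext_of_Iic _ _ fun x => ?_
  rcases lt_or_ge x 0 with h | h
  · exact hneg x h
  · have h1 := G_le hbm hbm' hb hb' hN hN' hB x h
    have h2 := G_le hbm' hbm hb' hb hN' hN hB.symm x h
    have h3 : G (aggregate μ κ) x = G (aggregate μ' κ') x := by linarith
    exact (measureReal_eq_measureReal_iff).1 h3

end two

end Q289.PL
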